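import Pool.Agent.D0H46.CI.Stm

/-!
# Project CI (helper46): there are few pairs with `RareZ`
-/

set_option autoImplicit false

namespace Pool.Agent.D0H50.CI

open Polynomial Module Pool.Agent.Y716.FF Pool.Agent.D0H46.CI

section lin
variable {F : Type*} [Field F] {ι : Type*} [Fintype ι]

/-- the embedding of the vectors of polynomials in the vectors of rational functions -/
noncomputable def emb (F ι : Type*) [Field F] :
    (ι → F[X]) →ₗ[F[X]] (ι → FractionRing F[X]) :=
  (Algebra.linearMap F[X] (FractionRing F[X])).compLeft ι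

theorem emb_apply (v : ι → F[X]) (i : ι) :
    emb F ι v i = algebraMap F[X] (FractionRing F[X]) (v i) := rfl

theorem emb_inj : Function.Injective (emb F ι) := by
  intro v w h
  funext i
  have := congrFun h i
  rw [emb_apply, emb_apply] at this
  exact IsFractionRing.injective F[X] (FractionRing F[X]) this

theorem indep_emb {n : ℕ} {l : Fin n → ι → F[X]} :
    LinearIndependent (FractionRing F[X]) (fun i => emb F ι (l i)) ↔ LinearIndependent F[X] l := by
  rw [← LinearIndependent.iff_fractionRing F[X] (FractionRing F[X])]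
  constructor
  · intro h
    exact LinearIndependent.of_comp (emb F ι) h
  · intro h
    exact h.map' (emb F ι) (LinearMap.ker_eq_bot.mpr emb_inj)

theorem eq_smul' {x y : ι → F[X]} {w : ι → F[X]} (hw : ∑ i, w i * x i = 1)
    (h : ∀ i j, mn x y i j = 0) (k : ι) : y k = (∑ i, w i * y i) * x k := by
  calc y k = (∑ i, w i * x i) * y k := by rw [hw, one_mul]
    _ = ∑ i, w i * y i * x k := by
      rw [Finset.sum_mul]
      refine Finset.sum_congr rfl (fun i _ => ?_)
      have := h i k
      unfold mn at this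
      linear_combination w i * this
    _ = _ := by rw [Finset.sum_mul]

/-- the vectors orthogonal to `n = k - 1` independent vectors of `x^⊥` -/
theorem orth1 {n : ℕ} (hn : Fintype.card ι = n + 1) {x : ι → F[X]} (hx : Prim x)
    {l : Fin n → ι → F[X]} (hl : LinearIndependent F[X] l) (hlx : ∀ i, ∑ t, l i t * x t = 0)
    {w : ι → F[X]} (hw : ∀ i, ∑ t, l i t * w t = 0) : ∃ c : F[X], ∀ t, w t = c * x t := by
  classical
  set K := FractionRing F[X] with hK
  obtain ⟨b, hb⟩ := hx.bezout
  have hx0 : emb F ι x ≠ 0 := by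
    intro h
    have h1 : x = 0 := emb_inj (by rw [h, map_zero])
    rw [h1] at hb
    simp at hb
  set M : Matrix (Fin n) ι K := Matrix.of (fun i => emb F ι (l i)) with hM
  have hrank : M.rank = n := by
    have h1 : LinearIndependent K M.row := indep_emb.mpr hl
    have := h1.rank_matrix
    rwa [Fintype.card_fin] at this
  have hker : finrank K (LinearMap.ker M.mulVecLin) = 1 := by
    have h1 := LinearMap.finrank_range_add_finrank_ker M.mulVecLin
    have h2 : finrank K (LinearMap.range M.mulVecLin) = n := hrank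
    rw [h2, Module.finrank_fintype_fun_eq_card, hn] at h1
    omega
  have hin : ∀ v : ι → F[X], (∀ i, ∑ t, l i t * v t = 0) → emb F ι v ∈ LinearMap.ker M.mulVecLin := by
    intro v hv
    rw [LinearMap.mem_ker]
    funext i
    rw [Matrix.mulVecLin_apply]
    show ∑ t, M i t * emb F ι v t = 0
    have h1 := congrArg (algebraMap F[X] K) (hv i)
    rw [map_sum, map_zero] at h1
    rw [← h1]
    refine Finset.sum_congr rfl (fun t _ => ?_)
    rw [map_mul]
    rfl
  obtain ⟨c, hc⟩ := (finrank_eq_one_iff_of_nonzero'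
    (⟨emb F ι x, hin x hlx⟩ : LinearMap.ker M.mulVecLin)
    (by intro h; exact hx0 (congrArg Subtype.val h))).mp hker ⟨emb F ι w, hin w hw⟩
  have hc' : ∀ t, c * algebraMap F[X] K (x t) = algebraMap F[X] K (w t) := by
    intro t
    have := congrFun (congrArg Subtype.val hc) t
    exact this
  have hmin : ∀ i j, mn x w i j = 0 := by
    intro i j
    apply IsFractionRing.injective F[X] K
    unfold mn
    rw [map_zero, map_sub, map_mul, map_mul, ← hc' j, ← hc' i]
    ring
  exact ⟨∑ i, b i * w i, fun t => eq_smul' hb hmin t⟩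

theorem orth_koszul {a B : ℕ} {y : ι → F[X]} (hb : Bal B a y) (hy : DegEq B y)
    {v : ι → F[X]} (hv : ∑ i, v i * y i = 0) :
    emb F ι v ∈ Submodule.span (FractionRing F[X]) (emb F ι '' {l | Orth a y l}) := by
  classical
  obtain ⟨N, hN⟩ : ∃ N : ℕ, ∀ i, (v i).natDegree ≤ a + N :=
    ⟨∑ i, (v i).natDegree, fun i =>
      (Finset.single_le_sum (f := fun i => (v i).natDegree) (fun _ _ => Nat.zero_le _)
        (Finset.mem_univ i)).trans (Nat.le_add_left _ _)⟩
  obtain ⟨L, hL1, hL2, hL3⟩ := hb.generation hy N v hN hv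
  have h1 : v = ∑ j ∈ Finset.range (N + 1), (X ^ j : F[X]) • L j := by
    funext i
    rw [hL3 i, Finset.sum_apply]
    rfl
  rw [h1, map_sum]
  refine Submodule.sum_mem _ (fun j _ => ?_)
  rw [map_smul]
  have h2 : emb F ι (L j) ∈ Submodule.span (FractionRing F[X]) (emb F ι '' {l | Orth a y l}) :=
    Submodule.subset_span ⟨L j, ⟨hL1 j, hL2 j⟩, rfl⟩
  have h3 := Submodule.smul_mem _ (algebraMap F[X] (FractionRing F[X]) (X ^ j)) h2
  rwa [algebraMap_smul] at h3

/-- independent vectors of small degree in `y^⊥`, one of them prescribed -/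
theorem orth2 {n : ℕ} (hn : Fintype.card ι = n + 1) {a B : ℕ} {y : ι → F[X]} (hb : Bal B a y)
    (hy : DegEq B y) {m : ι → F[X]} (hm : Orth a y m) (hm0 : m ≠ 0) (j0 : Fin n) :
    ∃ l : Fin n → ι → F[X], LinearIndependent F[X] l ∧ (∀ j, Orth a y (l j)) ∧ l j0 = m := by
  classical
  set K := FractionRing F[X] with hK
  obtain ⟨r, hr⟩ := hy.2
  have hr0 : y r ≠ 0 := by
    intro h; rw [h, degree_zero] at hr; exact absurd hr.symm (WithBot.natCast_ne_bot B)
  have hrK : algebraMap F[X] K (y r) ≠ 0 := by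
    rw [Ne, IsFractionRing.to_map_eq_zero_iff]
    exact hr0
  set S : Set (ι → K) := emb F ι '' {l | Orth a y l} with hS
  set D : (ι → K) →ₗ[K] K := Fintype.linearCombination K (fun i => algebraMap F[X] K (y i)) with hD
  have hDa : ∀ v, D v = ∑ i, v i * algebraMap F[X] K (y i) := fun v => by
    rw [hD, Fintype.linearCombination_apply]
    rfl
  have hrange : finrank K (LinearMap.range D) = 1 := by
    have h1 : LinearMap.range D = ⊤ := by
      rw [LinearMap.range_eq_top]
      intro c
      refine ⟨Pi.single r (c / algebraMap F[X] K (y r)), ?_⟩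
      rw [hDa, Finset.sum_eq_single r]
      · rw [Pi.single_eq_same, div_mul_cancel₀ _ hrK]
      · intro j _ hj
        rw [Pi.single_eq_of_ne hj, zero_mul]
      · intro h; exact absurd (Finset.mem_univ r) h
    rw [h1, finrank_top, finrank_self]
  have hkerD : finrank K (LinearMap.ker D) = n := by
    have h1 := LinearMap.finrank_range_add_finrank_ker D
    rw [hrange, Module.finrank_fintype_fun_eq_card, hn] at h1
    omega
  have hspan : Submodule.span K S = LinearMap.ker D := by
    apply le_antisymm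
    · rw [Submodule.span_le]
      rintro _ ⟨l, hl, rfl⟩
      show emb F ι l ∈ LinearMap.ker D
      rw [LinearMap.mem_ker, hDa]
      have h1 := congrArg (algebraMap F[X] K) hl.2
      rw [map_sum, map_zero] at h1
      rw [← h1]
      refine Finset.sum_congr rfl (fun t _ => ?_)
      rw [map_mul]
      rfl
    · intro v hv
      rw [LinearMap.mem_ker, hDa] at hv
      set κ : ι → ι → F[X] := fun t => fun u =>
        y r * (Pi.single t (1 : F[X]) : ι → F[X]) u - y t * (Pi.single r (1 : F[X]) : ι → F[X]) u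
        with hκ
      have hκo : ∀ t, ∑ u, κ t u * y u = 0 := by
        intro t
        have h1 : ∀ u, κ t u * y u = y r * ((Pi.single t (1 : F[X]) : ι → F[X]) u * y u) -
            y t * ((Pi.single r (1 : F[X]) : ι → F[X]) u * y u) := by
          intro u; rw [hκ]; ring
        simp only [h1]
        rw [Finset.sum_sub_distrib, ← Finset.mul_sum, ← Finset.mul_sum]
        simp only [Pi.single_apply, ite_mul, one_mul, zero_mul, Finset.sum_ite_eq',
          Finset.mem_univ, if_true]
        ring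
      have hv2 : v = ∑ t, (v t / algebraMap F[X] K (y r)) • emb F ι (κ t) := by
        funext u
        rw [Finset.sum_apply]
        have h1 : ∀ t, ((v t / algebraMap F[X] K (y r)) • emb F ι (κ t)) u =
            v t * (Pi.single t (1 : K) : ι → K) u -
              (v t * algebraMap F[X] K (y t)) *
                ((Pi.single r (1 : K) : ι → K) u / algebraMap F[X] K (y r)) := by
          intro t
          rw [Pi.smul_apply, emb_apply, hκ, smul_eq_mul]
          simp only [map_sub, map_mul]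
          have e1 : ∀ s : ι, algebraMap F[X] K ((Pi.single s (1 : F[X]) : ι → F[X]) u) =
              (Pi.single s (1 : K) : ι → K) u := by
            intro s
            simp only [Pi.single_apply]
            split_ifs <;> simp
          rw [e1, e1]
          show v t / algebraMap F[X] K (y r) * (algebraMap F[X] K (y r) * _ -
            algebraMap F[X] K (y t) * _) = _
          rw [mul_sub]
          congr 1
          · rw [← mul_assoc, div_mul_cancel₀ _ hrK]
          · ring
        simp only [h1]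
        rw [Finset.sum_sub_distrib, ← Finset.sum_mul, hv, zero_mul, sub_zero]
        simp [Pi.single_apply]
      rw [hv2]
      exact Submodule.sum_mem _ (fun t _ => Submodule.smul_mem _ _ (orth_koszul hb hy (hκo t)))
  have hmS : emb F ι m ∈ S := ⟨m, hm, rfl⟩
  have hmK : emb F ι m ≠ 0 := fun h => hm0 (emb_inj (by rw [h, map_zero]))
  obtain ⟨b, hbS, hmb, hSb, hbi⟩ := exists_linearIndepOn_id_extension
    (K := K) (s := {emb F ι m}) (t := S)
    (linearIndepOn_singleton_iff (R := K) (v := id) |>.mpr hmK) (by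
      intro u hu
      rw [Set.mem_singleton_iff] at hu
      rw [hu]
      exact hmS)
  have hbi' : LinearIndependent K ((↑) : b → ι → K) := hbi
  have : Finite b := hbi'.finite
  have : Fintype b := Fintype.ofFinite b
  have hspb : Submodule.span K b = LinearMap.ker D := by
    rw [← hspan]
    exact le_antisymm (Submodule.span_mono hbS) (Submodule.span_le.mpr hSb)
  have hcard : Fintype.card b = n := by
    have h1 := finrank_span_eq_card hbi'
    rw [Subtype.range_coe_subtype, Set.ofPred_mem_eq, hspb, hkerD] at h1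
    exact h1.symm
  set e0 : b ≃ Fin n := Fintype.equivFinOfCardEq hcard with he0
  set mb : b := ⟨emb F ι m, hmb rfl⟩ with hmbd
  set e : Fin n ≃ b := (Equiv.swap j0 (e0 mb)).trans e0.symm with he
  have hej : e j0 = mb := by
    rw [he]
    simp
  choose l hl1 hl2 using fun j => hbS (e j).2
  refine ⟨l, ?_, hl1, ?_⟩
  · rw [← indep_emb]
    have h1 : (fun i => emb F ι (l i)) = ((↑) : b → ι → K) ∘ e := by
      funext j
      exact hl2 j
    rw [h1]
    exact hbi'.comp e e.injective
  · apply emb_inj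
    rw [hl2 j0, hej]

end lin

section count
variable {F : Type*} [Field F] [Finite F] {ι : Type*} [Fintype ι]

open scoped Classical in
theorem hyp_card {a : ℕ} {Ξ : ι → F[X]} (hΞ : Ξ ≠ 0) (S : Finset (ι → F[X]))
    (hS : ∀ m ∈ S, ∀ i, (m i).natDegree ≤ a)
    (hd : ∀ m ∈ S, ∀ m' ∈ S, ∑ i, (m i - m' i) * Ξ i = 0) :
    S.card ≤ Nat.card F ^ ((Fintype.card ι - 1) * (a + 1)) := by
  obtain ⟨i0, hi0⟩ : ∃ i, Ξ i ≠ 0 := by
    by_contra h
    push Not at h
    exact hΞ (funext h)
  have h1 : S.card ≤ (Fintype.piFinset (fun _ : {i // i ≠ i0} => polyLT F (a + 1))).card := by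
    apply Finset.card_le_card_of_injOn (fun m => fun i : {i // i ≠ i0} => m i)
    · intro m hm
      simp only [Finset.mem_coe, Fintype.mem_piFinset, mem_polyLT]
      exact fun i => degree_lt_of_natDegree_le (hS m hm i)
    · intro m hm m' hm' heq
      have h2 : ∀ i, i ≠ i0 → m i = m' i := fun i hi => congrFun heq ⟨i, hi⟩
      have h3 := hd m hm m' hm'
      rw [Finset.sum_eq_single i0] at h3
      · have h4 : m i0 = m' i0 := by
          rcases mul_eq_zero.mp h3 with h | h
          · exact sub_eq_zero.mp h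
          · exact absurd h hi0
        funext i
        by_cases hi : i = i0
        · rw [hi, h4]
        · exact h2 i hi
      · intro i _ hi
        rw [h2 i hi, sub_self, zero_mul]
      · intro h; exact absurd (Finset.mem_univ i0) h
  refine h1.trans (le_of_eq ?_)
  rw [Fintype.card_piFinset, Finset.prod_const, card_polyLT, Finset.card_univ, ← pow_mul]
  congr 1
  rw [mul_comm]
  congr 1
  rw [Fintype.card_subtype_compl, Fintype.card_subtype_eq]

open scoped Classical in
theorem tup_card {n a : ℕ} (hk : 1 ≤ Fintype.card ι) (j0 : Fin n)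
    (T : Finset (Fin n → ι → F[X]))
    (hT : ∀ L ∈ T, ∀ j i, (L j i).natDegree ≤ a)
    (hd : ∀ L ∈ T, ∃ Ξ : ι → F[X], Ξ ≠ 0 ∧ ∀ L' ∈ T, (∀ j, j ≠ j0 → L' j = L j) →
      ∑ i, (L' j0 i - L j0 i) * Ξ i = 0) :
    T.card ≤ Nat.card F ^ ((Fintype.card ι * n - 1) * (a + 1)) := by
  have hn : 1 ≤ n := by
    rcases Nat.eq_zero_or_pos n with h | h
    · subst h; exact j0.elim0
    · exact h
  set Q := Fintype.piFinset (fun _ : {j // j ≠ j0} =>
    Fintype.piFinset (fun _ : ι => polyLT F (a + 1))) with hQ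
  have h1 : T.card ≤ Nat.card F ^ ((Fintype.card ι - 1) * (a + 1)) * Q.card := by
    refine Finset.card_le_mul_card_image_of_maps_to
      (f := fun (L : Fin n → ι → F[X]) => fun j : {j // j ≠ j0} => L j) ?_ _ ?_
    · intro L hL
      rw [hQ]
      simp only [Fintype.mem_piFinset, mem_polyLT]
      exact fun j i => degree_lt_of_natDegree_le (hT L hL j i)
    · intro b _
      rcases (T.filter (fun L => (fun j : {j // j ≠ j0} => L j) = b)).eq_empty_or_nonempty with h0 | ⟨L0, hL0⟩
      · rw [h0]; simp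
      obtain ⟨Ξ, hΞ, hΞ2⟩ := hd L0 (Finset.mem_filter.mp hL0).1
      have hag : ∀ L ∈ T.filter (fun L => (fun j : {j // j ≠ j0} => L j) = b), ∀ j, j ≠ j0 →
          L j = L0 j := by
        intro L hL j hj
        have e1 := congrFun (Finset.mem_filter.mp hL).2 ⟨j, hj⟩
        have e2 := congrFun (Finset.mem_filter.mp hL0).2 ⟨j, hj⟩
        exact e1.trans e2.symm
      have h3 : (T.filter (fun L => (fun j : {j // j ≠ j0} => L j) = b)).card =
          ((T.filter (fun L => (fun j : {j // j ≠ j0} => L j) = b)).image (fun L => L j0)).card := by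
        rw [Finset.card_image_of_injOn]
        intro L hL L' hL' heq
        funext j
        by_cases hj : j = j0
        · rw [hj]; exact heq
        · rw [hag L hL j hj, hag L' hL' j hj]
      rw [h3]
      apply hyp_card hΞ
      · intro m hm i
        obtain ⟨L, hL, rfl⟩ := Finset.mem_image.mp hm
        exact hT L (Finset.mem_filter.mp hL).1 j0 i
      · intro m hm m' hm'
        obtain ⟨L, hL, rfl⟩ := Finset.mem_image.mp hm
        obtain ⟨L', hL', rfl⟩ := Finset.mem_image.mp hm'
        have e1 := hΞ2 L (Finset.mem_filter.mp hL).1 (hag L hL)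
        have e2 := hΞ2 L' (Finset.mem_filter.mp hL').1 (hag L' hL')
        have e3 : ∀ i, (L j0 i - L' j0 i) * Ξ i =
            (L j0 i - L0 j0 i) * Ξ i - (L' j0 i - L0 j0 i) * Ξ i := by intro i; ring
        simp only [e3]
        rw [Finset.sum_sub_distrib, e1, e2, sub_zero]
  refine h1.trans (le_of_eq ?_)
  rw [hQ, Fintype.card_piFinset, Finset.prod_const, Fintype.card_piFinset, Finset.prod_const,
    card_polyLT, Finset.card_univ, Finset.card_univ, ← pow_mul, ← pow_mul, ← pow_add]
  congr 1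
  have h5 : Fintype.card {j : Fin n // j ≠ j0} = n - 1 := by
    rw [Fintype.card_subtype_compl, Fintype.card_subtype_eq, Fintype.card_fin]
  rw [h5]
  obtain ⟨k, hk'⟩ : ∃ k, Fintype.card ι = k + 1 := ⟨Fintype.card ι - 1, by omega⟩
  obtain ⟨n', hn'⟩ : ∃ n', n = n' + 1 := ⟨n - 1, by omega⟩
  rw [hk', hn']
  have h6 : (k + 1) * (n' + 1) - 1 = k + (k + 1) * n' := by
    have : (k + 1) * (n' + 1) = k + (k + 1) * n' + 1 := by ring
    omega
  rw [h6]
  simp only [Nat.add_sub_cancel]
  ring

end count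


section main
universe u v
variable {F : Type u} [Field F] [Finite F] {ι : Type v} [Fintype ι]

/-- the dot product -/
noncomputable def dt (l w : ι → F[X]) : F[X] := ∑ t, l t * w t

omit [Finite F] in
theorem dt_comm (l w : ι → F[X]) : dt l w = dt w l := by
  unfold dt
  exact Finset.sum_congr rfl (fun t _ => mul_comm _ _)

omit [Finite F] in
theorem dt_add (l w w' : ι → F[X]) : dt l (fun t => w t + w' t) = dt l w + dt l w' := by
  unfold dt
  rw [← Finset.sum_add_distrib]
  exact Finset.sum_congr rfl (fun t _ => mul_add _ _ _)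

omit [Finite F] in
theorem dt_smul (c : F[X]) (l w : ι → F[X]) : dt l (fun t => c * w t) = c * dt l w := by
  unfold dt
  rw [Finset.mul_sum]
  exact Finset.sum_congr rfl (fun t _ => by ring)

/-- the vector `Z m` -/
noncomputable def Zm (Z : ι → ι → F[X]) (m : ι → F[X]) : ι → F[X] := fun t => ∑ s, Z t s * m s

omit [Finite F] in
theorem dt_Zm (Z : ι → ι → F[X]) (l m : ι → F[X]) : dt l (Zm Z m) = blf Z l m := by
  unfold dt Zm blf
  refine Finset.sum_congr rfl (fun t _ => ?_)
  rw [Finset.mul_sum]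
  exact Finset.sum_congr rfl (fun s _ => by ring)

omit [Finite F] in
theorem blf_symm {Z : ι → ι → F[X]} (hZ : ∀ i j, Z i j = Z j i) (l m : ι → F[X]) :
    blf Z l m = blf Z m l := by
  unfold blf
  rw [Finset.sum_comm]
  refine Finset.sum_congr rfl (fun t _ => Finset.sum_congr rfl (fun s _ => ?_))
  rw [hZ s t]
  ring

/-- the vector `Ξ` -/
noncomputable def Xi (x ω₁ ω₂ m₁ m₂ : ι → F[X]) : ι → F[X] := fun t =>
  dt x m₂ * ω₁ t - dt x m₁ * ω₂ t + (dt m₁ ω₂ - dt m₂ ω₁) * x t

omit [Finite F] in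
theorem dt_Xi (x ω₁ ω₂ m₁ m₂ l : ι → F[X]) : dt l (Xi x ω₁ ω₂ m₁ m₂) =
    dt x m₂ * dt l ω₁ - dt x m₁ * dt l ω₂ + (dt m₁ ω₂ - dt m₂ ω₁) * dt l x := by
  unfold Xi
  have h : (fun t => dt x m₂ * ω₁ t - dt x m₁ * ω₂ t + (dt m₁ ω₂ - dt m₂ ω₁) * x t) =
      fun t => (dt x m₂ * ω₁ t + (-dt x m₁) * ω₂ t) + (dt m₁ ω₂ - dt m₂ ω₁) * x t := by
    funext t; ring
  rw [h, dt_add, dt_add, dt_smul, dt_smul, dt_smul]
  ring

omit [Finite F] in
/-- the relation between three of the vectors -/
theorem rel3 {Z : ι → ι → F[X]} (hZ : ∀ i j, Z i j = Z j i) {x ω₁ ω₂ ω₃ m₁ m₂ m₃ : ι → F[X]}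
    {c₁ c₂ c₃ : F[X]} (h1 : ∀ t, Zm Z m₁ t - ω₁ t = c₁ * x t)
    (h2 : ∀ t, Zm Z m₂ t - ω₂ t = c₂ * x t) (h3 : ∀ t, Zm Z m₃ t - ω₃ t = c₃ * x t) :
    dt m₃ (Xi x ω₁ ω₂ m₁ m₂) + dt x m₁ * dt m₂ ω₃ - dt x m₂ * dt m₁ ω₃ = 0 := by
  have e1 : ∀ l, blf Z l m₁ = dt l ω₁ + c₁ * dt l x := by
    intro l
    have : Zm Z m₁ = fun t => ω₁ t + c₁ * x t := by funext t; linear_combination h1 t
    rw [← dt_Zm, this, dt_add, dt_smul]
  have e2 : ∀ l, blf Z l m₂ = dt l ω₂ + c₂ * dt l x := by
    intro l
    have : Zm Z m₂ = fun t => ω₂ t + c₂ * x t := by funext t; linear_combination h2 t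
    rw [← dt_Zm, this, dt_add, dt_smul]
  have e3 : ∀ l, blf Z l m₃ = dt l ω₃ + c₃ * dt l x := by
    intro l
    have : Zm Z m₃ = fun t => ω₃ t + c₃ * x t := by funext t; linear_combination h3 t
    rw [← dt_Zm, this, dt_add, dt_smul]
  have s12 := blf_symm hZ m₁ m₂
  have s13 := blf_symm hZ m₁ m₃
  have s23 := blf_symm hZ m₂ m₃
  rw [e1, e2] at s12
  rw [e1, e3] at s13
  rw [e2, e3] at s23
  rw [dt_Xi, dt_comm x m₁, dt_comm x m₂]
  linear_combination dt m₃ x * s12 - dt m₂ x * s13 + dt m₁ x * s23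

open scoped Classical in
theorem t_RARE : S_RARE.{u, v} := by
  intro F _ _ ι _ B a s Rr hk4 haB hRr
  obtain ⟨n, hn⟩ : ∃ n, Fintype.card ι = n + 1 := ⟨Fintype.card ι - 1, by omega⟩
  have hn3 : 3 ≤ n := by omega
  set J : Fin 3 → Fin n := Fin.castLE hn3 with hJ
  have hJ01 : J 0 ≠ J 1 := by intro h; exact absurd (Fin.castLE_injective hn3 h) (by decide)
  have hJ02 : J 0 ≠ J 2 := by intro h; exact absurd (Fin.castLE_injective hn3 h) (by decide)
  have hJ12 : J 1 ≠ J 2 := by intro h; exact absurd (Fin.castLE_injective hn3 h) (by decide)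
  -- the choices for `x`
  have H1 : ∀ x : ι → F[X], ∃ l : Fin n → ι → F[X],
      (∃ l' : Fin n → ι → F[X], LinearIndependent F[X] l' ∧ ∀ i, Orth a x (l' i)) →
      (LinearIndependent F[X] l ∧ ∀ i, Orth a x (l i)) := by
    intro x
    by_cases h : ∃ l' : Fin n → ι → F[X], LinearIndependent F[X] l' ∧ ∀ i, Orth a x (l' i)
    · exact ⟨h.choose, fun _ => h.choose_spec⟩
    · exact ⟨0, fun h' => absurd h' h⟩
  choose lx hlx using H1
  have H2 : ∀ (x : ι → F[X]) (τ : Fin n → F[X]), ∃ ω : ι → F[X],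
      (∃ w : ι → F[X], ∀ i, dt (lx x i) w = τ i) → ∀ i, dt (lx x i) ω = τ i := by
    intro x τ
    by_cases h : ∃ w : ι → F[X], ∀ i, dt (lx x i) w = τ i
    · exact ⟨h.choose, fun _ => h.choose_spec⟩
    · exact ⟨0, fun h' => absurd h' h⟩
  choose ω hω using H2
  -- the data of a pair
  have H3 : ∀ p : (ι → F[X]) × (ι → F[X]), ∃ (Z : ι → ι → F[X]) (L : Fin n → ι → F[X])
      (l₀ : ι → F[X]), p ∈ Rr → (∀ i j, Z i j = Z j i) ∧
      (∀ l l', Orth a p.1 l → Orth a p.2 l' → (blf Z l l').degree < (s : WithBot ℕ)) ∧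
      LinearIndependent F[X] L ∧ (∀ j, Orth a p.2 (L j)) ∧ Orth a p.1 l₀ ∧
      blf Z l₀ (L (J 0)) ≠ 0 ∧
      (∃ l' : Fin n → ι → F[X], LinearIndependent F[X] l' ∧ ∀ i, Orth a p.1 (l' i)) := by
    intro p
    by_cases hp : p ∈ Rr
    · obtain ⟨⟨hx1, hx2, hx3⟩, ⟨hy1, hy2, hy3⟩, Z, hZ1, hZ2, l, l', hl, hl', hne⟩ := hRr p hp
      have hl0 : l ≠ 0 := by
        intro h; apply hne; rw [h]; unfold blf; simp
      have hl0' : l' ≠ 0 := by
        intro h; apply hne; rw [h]; unfold blf; simp
      obtain ⟨L, hL1, hL2, hL3⟩ := orth2 hn hy3 hy1 hl' hl0' (J 0)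
      obtain ⟨M, hM1, hM2, _⟩ := orth2 hn hx3 hx1 hl hl0 (J 0)
      exact ⟨Z, L, l, fun _ => ⟨hZ1, hZ2, hL1, hL2, hl, by rw [hL3]; exact hne, M, hM1, hM2⟩⟩
    · exact ⟨fun _ _ => 0, fun _ _ => 0, 0, fun h => absurd h hp⟩
  choose Z L l₀ hD using H3
  set θ : (ι → F[X]) × (ι → F[X]) → Fin 3 → Fin n → F[X] :=
    fun p j i => dt (lx p.1 i) (Zm (Z p) (L p (J j))) with hθ
  set code : (ι → F[X]) × (ι → F[X]) →
    ((ι → F[X]) × (Fin 3 → Fin n → F[X])) × (Fin n → ι → F[X]) :=
    fun p => ((p.1, θ p), L p) with hcode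
  set C := Rr.image code with hC
  -- facts about a pair
  have hω1 : ∀ p ∈ Rr, ∀ j, ∀ i, dt (lx p.1 i) (ω p.1 (θ p j)) = θ p j i := by
    intro p hp j
    exact hω p.1 (θ p j) ⟨Zm (Z p) (L p (J j)), fun i => rfl⟩
  have hlx1 : ∀ p ∈ Rr, LinearIndependent F[X] (lx p.1) ∧ ∀ i, Orth a p.1 (lx p.1 i) :=
    fun p hp => hlx p.1 (hD p hp).2.2.2.2.2.2
  have hcx : ∀ p ∈ Rr, ∀ j, ∃ c : F[X], ∀ t,
      Zm (Z p) (L p (J j)) t - ω p.1 (θ p j) t = c * p.1 t := by
    intro p hp j
    obtain ⟨h1, h2⟩ := hlx1 p hp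
    refine orth1 hn (hRr p hp).1.2.1 h1 (fun i => (h2 i).2)
      (w := fun t => Zm (Z p) (L p (J j)) t - ω p.1 (θ p j) t) (fun i => ?_)
    have h3 := hω1 p hp j i
    have h4 : ∀ t, lx p.1 i t * (Zm (Z p) (L p (J j)) t - ω p.1 (θ p j) t) =
        lx p.1 i t * Zm (Z p) (L p (J j)) t - lx p.1 i t * ω p.1 (θ p j) t := by
      intro t; ring
    simp only [h4]
    rw [Finset.sum_sub_distrib]
    show dt (lx p.1 i) (Zm (Z p) (L p (J j))) - dt (lx p.1 i) (ω p.1 (θ p j)) = 0
    rw [h3]
    exact sub_self _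
  have hrel : ∀ p ∈ Rr, dt (L p (J 2)) (Xi p.1 (ω p.1 (θ p 0)) (ω p.1 (θ p 1)) (L p (J 0))
      (L p (J 1))) + dt p.1 (L p (J 0)) * dt (L p (J 1)) (ω p.1 (θ p 2)) -
      dt p.1 (L p (J 1)) * dt (L p (J 0)) (ω p.1 (θ p 2)) = 0 := by
    intro p hp
    obtain ⟨c1, h1⟩ := hcx p hp 0
    obtain ⟨c2, h2⟩ := hcx p hp 1
    obtain ⟨c3, h3⟩ := hcx p hp 2
    exact rel3 (hD p hp).1 h1 h2 h3
  have hnz : ∀ p ∈ Rr, ∃ i, θ p 0 i ≠ 0 := by
    intro p hp
    by_contra h
    push Not at h
    obtain ⟨h1, h2⟩ := hlx1 p hp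
    obtain ⟨c, hc⟩ := orth1 hn (hRr p hp).1.2.1 h1 (fun i => (h2 i).2)
      (w := Zm (Z p) (L p (J 0))) (fun i => h i)
    apply (hD p hp).2.2.2.2.2.1
    rw [← dt_Zm]
    have h3 : Zm (Z p) (L p (J 0)) = fun t => c * p.1 t := funext hc
    rw [h3, dt_smul]
    have h4 : dt (l₀ p) p.1 = 0 := (hD p hp).2.2.2.2.1.2
    rw [h4, mul_zero]
  have hx0 : ∀ p ∈ Rr, p.1 ≠ 0 := by
    intro p hp h
    obtain ⟨r, hr⟩ := (hRr p hp).1.1.2
    rw [h] at hr
    simp only [Pi.zero_apply, degree_zero] at hr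
    exact absurd hr.symm (WithBot.natCast_ne_bot B)
  -- step 1: the fibres of the code
  have hstep1 : Rr.card ≤ Nat.card F * C.card := by
    refine Finset.card_le_mul_card_image_of_maps_to (f := code)
      (fun p hp => Finset.mem_image_of_mem _ hp) _ ?_
    intro b _
    rcases (Rr.filter (fun p => code p = b)).eq_empty_or_nonempty with h0 | ⟨p0, hp0⟩
    · rw [h0]; simp
    have hp0' := (Finset.mem_filter.mp hp0).1
    have h1 : ∀ p ∈ Rr.filter (fun p => code p = b), p ∈ Rr ∧ p.1 = p0.1 ∧ L p = L p0 := by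
      intro p hp
      have e := (Finset.mem_filter.mp hp).2.trans (Finset.mem_filter.mp hp0).2.symm
      exact ⟨(Finset.mem_filter.mp hp).1, congrArg (fun c => c.1.1) e, congrArg (fun c => c.2) e⟩
    have h2 : (Rr.filter (fun p => code p = b)).card =
        ((Rr.filter (fun p => code p = b)).image (fun p => p.2)).card := by
      rw [Finset.card_image_of_injOn]
      intro p hp p' hp' heq
      exact Prod.ext ((h1 p hp).2.1.trans (h1 p' hp').2.1.symm) heq
    rw [h2]
    refine prop_card (hRr p0 hp0').2.1.2.1 (hRr p0 hp0').2.1.1 _ ?_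
    intro y hy
    obtain ⟨p, hp, rfl⟩ := Finset.mem_image.mp hy
    obtain ⟨g1, g2, g3⟩ := h1 p hp
    refine ⟨(hRr p g1).2.1.1.1, ?_⟩
    obtain ⟨c, hc⟩ := orth1 hn (hRr p0 hp0').2.1.2.1 (hD p0 hp0').2.2.1
      (fun i => ((hD p0 hp0').2.2.2.1 i).2) (w := p.2) (fun i => by
        rw [← g3]
        exact ((hD p g1).2.2.2.1 i).2)
    intro i j
    unfold mn
    rw [hc i, hc j]
    ring
  -- step 2: the tuples for given `x`, `θ`
  have hstep2 : C.card ≤ (2 * Nat.card F ^ ((Fintype.card ι * n - 1) * (a + 1))) *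
      ((Fintype.piFinset (fun _ : ι => polyLT F (B + 1))) ×ˢ
        (Fintype.piFinset (fun _ : Fin 3 => Fintype.piFinset (fun _ : Fin n => polyLT F s)))).card := by
    refine Finset.card_le_mul_card_image_of_maps_to (f := fun c => c.1) ?_ _ ?_
    · intro c hc
      obtain ⟨p, hp, rfl⟩ := Finset.mem_image.mp hc
      rw [Finset.mem_product]
      simp only [Fintype.mem_piFinset, mem_polyLT]
      refine ⟨fun i => degree_lt_of_natDegree_le ((hRr p hp).1.1.1 i), fun j i => ?_⟩
      show (dt (lx p.1 i) (Zm (Z p) (L p (J j)))).degree < s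
      rw [dt_Zm]
      exact (hD p hp).2.1 _ _ ((hlx1 p hp).2 i) ((hD p hp).2.2.2.1 (J j))
    · intro b _
      obtain ⟨x, τ⟩ := b
      set Fb := C.filter (fun c => c.1 = (x, τ)) with hFb
      have h1 : ∀ c ∈ Fb, ∃ p ∈ Rr, p.1 = x ∧ θ p = τ ∧ c.2 = L p := by
        intro c hc
        obtain ⟨p, hp, rfl⟩ := Finset.mem_image.mp (Finset.mem_filter.mp hc).1
        have e := (Finset.mem_filter.mp hc).2
        exact ⟨p, hp, congrArg (fun c => c.1) e, congrArg (fun c => c.2) e, rfl⟩
      set T := Fb.image (fun c => c.2) with hT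
      have h2 : Fb.card = T.card := by
        rw [hT, Finset.card_image_of_injOn]
        intro c hc c' hc' heq
        exact Prod.ext ((Finset.mem_filter.mp hc).2.trans (Finset.mem_filter.mp hc').2.symm) heq
      have h3 : ∀ m ∈ T, ∃ p ∈ Rr, p.1 = x ∧ θ p = τ ∧ m = L p := by
        intro m hm
        obtain ⟨c, hc, rfl⟩ := Finset.mem_image.mp hm
        exact h1 c hc
      have hdeg : ∀ m ∈ T, ∀ j i, (m j i).natDegree ≤ a := by
        intro m hm j i
        obtain ⟨p, hp, _, _, rfl⟩ := h3 m hm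
        exact ((hD p hp).2.2.2.1 j).1 i
      set Ξ : (Fin n → ι → F[X]) → ι → F[X] := fun m =>
        Xi x (ω x (τ 0)) (ω x (τ 1)) (m (J 0)) (m (J 1)) with hΞ
      rw [h2, ← Finset.card_filter_add_card_filter_not (s := T) (fun m => Ξ m ≠ 0), two_mul]
      apply Nat.add_le_add
      · -- case I
        apply tup_card (by omega) (J 2)
        · exact fun m hm => hdeg m (Finset.mem_filter.mp hm).1
        · intro m hm
          refine ⟨Ξ m, (Finset.mem_filter.mp hm).2, ?_⟩
          intro m' hm' hag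
          obtain ⟨p, hp, hpx, hpθ, hpm⟩ := h3 m (Finset.mem_filter.mp hm).1
          obtain ⟨p', hp', hpx', hpθ', hpm'⟩ := h3 m' (Finset.mem_filter.mp hm').1
          have r1 := hrel p hp
          have r2 := hrel p' hp'
          rw [hpx, hpθ, ← hpm] at r1
          rw [hpx', hpθ', ← hpm', hag (J 0) hJ02, hag (J 1) hJ12] at r2
          have r3 : dt (m' (J 2)) (Ξ m) - dt (m (J 2)) (Ξ m) = 0 := by
            rw [hΞ]
            linear_combination r2 - r1
          rw [← r3]
          unfold dt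
          rw [← Finset.sum_sub_distrib]
          exact Finset.sum_congr rfl (fun i _ => by ring)
      · -- case II
        apply tup_card (by omega) (J 1)
        · exact fun m hm => hdeg m (Finset.mem_filter.mp hm).1
        · intro m hm
          obtain ⟨p, hp, hpx, hpθ, hpm⟩ := h3 m (Finset.mem_filter.mp hm).1
          refine ⟨x, by rw [← hpx]; exact hx0 p hp, ?_⟩
          intro m' hm' hag
          have z1 : Ξ m = 0 := not_not.mp (Finset.mem_filter.mp hm).2
          have z2 : Ξ m' = 0 := not_not.mp (Finset.mem_filter.mp hm').2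
          obtain ⟨i, hi⟩ := hnz p hp
          have o1 := hω1 p hp 0 i
          have o2 : dt (lx p.1 i) p.1 = 0 := ((hlx1 p hp).2 i).2
          rw [hpx, hpθ] at o1
          rw [hpx] at o2
          rw [hpθ] at hi
          have y1 : dt (lx x i) (Ξ m) = 0 := by rw [z1]; unfold dt; simp
          have y2 : dt (lx x i) (Ξ m') = 0 := by rw [z2]; unfold dt; simp
          rw [hΞ] at y1 y2
          simp only at y1 y2
          rw [dt_Xi, o1, o2] at y1 y2
          rw [hag (J 0) hJ01] at y2
          have y3 : (dt x (m' (J 1)) - dt x (m (J 1))) * τ 0 i = 0 := by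
            linear_combination y2 - y1
          have y4 : dt x (m' (J 1)) - dt x (m (J 1)) = 0 := by
            rcases mul_eq_zero.mp y3 with h | h
            · exact h
            · exact absurd h hi
          rw [← y4]
          unfold dt
          rw [← Finset.sum_sub_distrib]
          exact Finset.sum_congr rfl (fun i _ => by ring)
  refine (hstep1.trans (Nat.mul_le_mul_left _ hstep2)).trans (le_of_eq ?_)
  rw [Finset.card_product, Fintype.card_piFinset, Finset.prod_const, Fintype.card_piFinset,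
    Finset.prod_const, Fintype.card_piFinset, Finset.prod_const, card_polyLT, card_polyLT,
    Finset.card_univ, Finset.card_univ, Finset.card_univ, Fintype.card_fin, Fintype.card_fin,
    ← pow_mul, ← pow_mul, ← pow_mul]
  have e1 : Fintype.card ι * (Fintype.card ι - 1) - 1 = Fintype.card ι * n - 1 := by
    rw [hn]; simp
  have e2 : Fintype.card ι - 1 = n := by omega
  rw [e1, e2]
  have e3 : Nat.card F * (2 * Nat.card F ^ ((Fintype.card ι * n - 1) * (a + 1)) *
      (Nat.card F ^ ((B + 1) * Fintype.card ι) * Nat.card F ^ (s * (n * 3)))) =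
      2 * (Nat.card F ^ 1 * Nat.card F ^ ((Fintype.card ι * n - 1) * (a + 1)) *
      Nat.card F ^ ((B + 1) * Fintype.card ι) * Nat.card F ^ (s * (n * 3))) := by ring
  rw [e3, ← pow_add, ← pow_add, ← pow_add]
  congr 2
  ring

end main

end Pool.Agent.D0H50.CI
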